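import Pool.Agent.Lib.MP_c487e3_gt.Final

/-!
# A `CD(0,3)` space that contains a line and does not split topologically

The space is `ℝ³/{±1}` with the quotient of the `ℓ¹` metric and the image of the Lebesgue measure.
It is the cone over the projective plane.
-/

universe u

namespace Pool.Agent.Results.MP_c487e3_gt.NoSplitting

open MeasureTheory _root_.MP_c487e3_gt

/-- There is a metric measure space satisfying `CD(0,3)` that contains a line and is not
homeomorphic to any product `Y × ℝ`. -/
theorem result :
    ∃ (X : Type) (_ : MetricSpace X) (_ : MeasurableSpace X) (m : Measure X),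
      IsMMSpace X m ∧ CD0 m 3 ∧ ContainsLine X ∧
        ∀ (Y : Type u) [TopologicalSpace Y], IsEmpty (X ≃ₜ Y × ℝ) :=
  ⟨Q3, inferInstance, inferInstance, mQ, isMMSpace, cd_Q3, containsLine, no_splitting_Q3⟩

end Pool.Agent.Results.MP_c487e3_gt.NoSplitting
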